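import Mathlib
import Pool.Agent.X181.BiFin

/-!
# MP_4617b5_gt: a PMC proper biharmonic immersion into a sphere with non-parallel `A_H`

The immersion is the product of the minimal Clifford torus `T⁷` of `S¹³` (radius `√(7/15)`) and of
an isoparametric hypersurface `M³` of `S⁴` with three principal curvatures (radius `√(8/15)`),
seen in `S²²` (it lies in a totally geodesic `S¹⁸`), parametrised by `ℝ⁷ × ℝ³`.
-/

namespace Pool.Agent.Results.MP_4617b5_gt.TorusCartan

open Pool.Agent.X181
open scoped ContDiff RealInnerProductSpace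

/-- There are a real vector space `M` of dimension ten (see `IsOrthoFrame.card`), a smooth
immersion `f` of the manifold `M` into the unit sphere `S²²` of the Euclidean space of dimension
`23` (`Bi.F`), with Levi-Civita connection `Γ` of the induced metric, a smooth orthonormal frame
`e` of `M`, and a smooth `(1,1)` tensor field `A` on `M`, such that `A = A_H` is the shape operator
of the mean curvature vector field `H`, `∇^⊥ H = 0`, `H` vanishes nowhere, the bitension field of
`f` vanishes, and `∇ A_H` vanishes at no point. -/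
theorem result :
    ∃ (M : Type) (_ : NormedAddCommGroup M) (_ : NormedSpace ℝ M) (f : M → Bi.F)
      (Γ : M → M →L[ℝ] M →L[ℝ] M) (e : Fin 7 ⊕ Fin 3 → M → M) (A : M → M →L[ℝ] M),
      IsPMCBiharmonic Set.univ f Γ e A ∧ ∀ x, ∃ u v, covDA Γ A x u v ≠ 0 := by
  have hΓ : IsLeviCivita (Set.univ : Set Bi.E) (fMet Bi.f) (lcConn Bi.BF Bi.f) := by
    refine lcConn_isLeviCivita isOpen_univ Bi.f_smooth.contDiffOn Bi.BF
      (fun X Y => real_inner_comm Y X) ?_
    intro x _ u h
    have h1 := h u
    rw [Bi.BF_apply] at h1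
    have h2 : fderiv ℝ Bi.f x u = 0 := inner_self_eq_zero.1 h1
    have h3 : fderiv ℝ Bi.f x u = fderiv ℝ Bi.f x 0 := by rw [h2, map_zero]
    exact Bi.df_inj x h3
  refine ⟨Bi.E, inferInstance, inferInstance, Bi.f, lcConn Bi.BF Bi.f, Bi.e, Bi.Ax,
    ⟨Bi.f_sph, hΓ, Bi.e_ortho, Bi.Ax_smooth.contDiffOn, fun x _ => Bi.shape hΓ x, ?_, ?_,
    fun x _ => Bi.bitension_eq hΓ x⟩, Bi.nonparallel hΓ⟩
  · intro x _ u
    unfold normD
    rw [Submodule.starProjection_apply_eq_zero_iff, Bi.normal hΓ]
    unfold sphNormal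
    apply Submodule.le_orthogonal_orthogonal
    apply Submodule.mem_sup_left
    exact neg_mem ⟨_, rfl⟩
  · intro x _ h
    have h1 := Bi.norm_mean hΓ x
    rw [h, norm_zero] at h1
    norm_num at h1

end Pool.Agent.Results.MP_4617b5_gt.TorusCartan
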